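import Pool.Agent.H479Z.Defs
import Pool.Agent.H479Z.Part

set_option autoImplicit false
open Metric MeasureTheory

namespace Pool.Agent.Results.MP_06dd87_an.OnePart

open Pool.Agent.H479Z

/-- There is a (classical) Swiss cheese `X` such that the nonpeak points of `R(X)` form exactly
one Gleason part, this part has full planar measure in `X`, and `R(X)` has no nonzero bounded
point derivation at any point of `X`. -/
theorem result : ∃ (c : ℕ → ℂ) (r : ℕ → ℝ) (X : Set ℂ),
    (∀ n, 0 < r n) ∧ (∀ n, closedBall (c n) (r n) ⊆ ball 0 1) ∧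
    (∀ m n, m ≠ n → Disjoint (closedBall (c m) (r m)) (closedBall (c n) (r n))) ∧
    Summable r ∧ X = closedBall 0 1 \ ⋃ n, ball (c n) (r n) ∧ interior X = ∅ ∧
    (∃ x : X, {y : X | ¬ IsPeak X y} = {y : X | SamePart X x y}) ∧
    volume (X \ Subtype.val '' {y : X | ¬ IsPeak X y}) = 0 ∧
    ∀ (x : X) (D : C(X, ℂ) → ℂ), IsBPD X x D → ∀ f ∈ RX X, D f = 0 :=
  exists_one_part

end Pool.Agent.Results.MP_06dd87_an.OnePart
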